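import Pool.Agent.Helper69.ST.GoalsR

open MeasureTheory Set Complex Metric Filter
open scoped ContDiff Topology ENNReal

namespace Pool.Agent.Helper92.ST.OC

open Pool.Agent.Helper69.ST

/-- The outside of a disk is connected. -/
theorem ext_conn (R : ℝ) (hR : 0 ≤ R) : IsPreconnected {z : ℂ | R < ‖z‖} := by
  have h : {z : ℂ | R < ‖z‖} = (fun q : ℝ × ℝ => (q.1 : ℂ) * Complex.exp (q.2 * I)) '' (Ioi R ×ˢ (univ : Set ℝ)) := by
    ext z
    simp only [mem_setOf_eq, mem_image, mem_prod, mem_Ioi, mem_univ, and_true, Prod.exists]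
    constructor
    · intro hz
      exact ⟨‖z‖, z.arg, hz, Complex.norm_mul_exp_arg_mul_I z⟩
    · rintro ⟨r, θ, hr, rfl⟩
      rw [norm_mul, Complex.norm_exp_ofReal_mul_I, mul_one, Complex.norm_real, Real.norm_of_nonneg (by linarith)]
      exact hr
  rw [h]
  refine IsPreconnected.image ?_ _ ?_
  · exact ((convex_Ioi R).prod convex_univ).isPreconnected
  · exact Continuous.continuousOn (by fun_prop)

theorem not_bdd (R : ℝ) : ¬ Bornology.IsBounded {z : ℂ | R < ‖z‖} := by
  intro h
  obtain ⟨M, hM⟩ := h.exists_norm_le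
  have h1 := hM (((|M| + |R| + 1 : ℝ)) : ℂ) (by
    simp only [mem_setOf_eq, Complex.norm_real, Real.norm_eq_abs]
    rw [abs_of_nonneg (by positivity)]
    have := le_abs_self R
    have := abs_nonneg M
    linarith)
  rw [Complex.norm_real, Real.norm_eq_abs, abs_of_nonneg (by positivity)] at h1
  have := le_abs_self M
  have := abs_nonneg R
  linarith

theorem t : S_OC := by
  intro Ω hb
  obtain ⟨R0, hR0⟩ := hb.closure.exists_norm_le
  set R : ℝ := max R0 0 with hRdef
  have hR : 0 ≤ R := le_max_right _ _
  set F : Set ℂ := (closure Ω)ᶜ with hF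
  set E : Set ℂ := {z : ℂ | R < ‖z‖} with hE
  have hEF : E ⊆ F := by
    intro z hz hz'
    have h1 := hR0 z hz'
    have h2 : R < ‖z‖ := hz
    have h3 : R0 ≤ R := le_max_left _ _
    linarith
  have hFo : IsOpen F := isClosed_closure.isOpen_compl
  have hEc : IsPreconnected E := ext_conn R hR
  have hsub : ∀ z ∈ E, E ⊆ connectedComponentIn F z := fun z hz => hEc.subset_connectedComponentIn hz hEF
  set z0 : ℂ := ((R + 1 : ℝ) : ℂ) with hz0
  have hz0E : z0 ∈ E := by
    show R < ‖z0‖
    rw [hz0, Complex.norm_real, Real.norm_of_nonneg (by linarith)]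
    linarith
  have key : outerC Ω = connectedComponentIn F z0 := by
    ext z
    constructor
    · rintro ⟨hzF, hzb⟩
      have hzb' : ¬ Bornology.IsBounded (connectedComponentIn F z) := hzb
      have h1 : ∃ w ∈ connectedComponentIn F z, R < ‖w‖ := by
        by_contra hcon
        push Not at hcon
        exact hzb' (isBounded_iff_forall_norm_le.2 ⟨R, hcon⟩)
      obtain ⟨w, hw, hwR⟩ := h1
      have h2 : connectedComponentIn F z = connectedComponentIn F w := connectedComponentIn_eq hw
      have h3 : z0 ∈ connectedComponentIn F w := hsub w hwR hz0E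
      have h4 : connectedComponentIn F w = connectedComponentIn F z0 := connectedComponentIn_eq h3
      rw [← h4, ← h2]
      exact mem_connectedComponentIn hzF
    · intro hz
      have hzF : z ∈ F := connectedComponentIn_subset _ _ hz
      refine ⟨hzF, fun hbd => ?_⟩
      have h1 : connectedComponentIn F z0 = connectedComponentIn F z := connectedComponentIn_eq hz
      have hbd' : Bornology.IsBounded (connectedComponentIn F z) := hbd
      rw [← h1] at hbd'
      exact not_bdd R (hbd'.subset (hsub z0 hz0E))
  refine ⟨?_, ?_, ?_, ?_, ?_⟩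
  · rw [key]; exact hFo.connectedComponentIn
  · rw [key]; exact isConnected_connectedComponentIn_iff.2 (hEF hz0E)
  · exact fun z hz => hz.1
  · exact ⟨R, fun z hz => by rw [key]; exact hsub z0 hz0E hz⟩
  · intro C hC hne hCF
    obtain ⟨w, hwC, hwO⟩ := hne
    rw [key] at hwO ⊢
    have h1 : connectedComponentIn F z0 = connectedComponentIn F w := connectedComponentIn_eq hwO
    rw [h1]
    exact hC.subset_connectedComponentIn hwC hCF

end Pool.Agent.Helper92.ST.OC
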